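import Pool.Agent.Helper54.EndFG

/-!
Commutative epigroups (every element has a regular power) with cancellative pointwise endomorphism
semigroup are exactly the abelian groups.
-/

namespace Pool.Agent.Results.MP_4b0123_al.Epigroups

open Pool.Agent.Helper54.EndCanc

/-- If every element of a nonempty commutative semigroup `S` has a power which is a regular
element, then `End(S)` is cancellative if and only if `S` is a group. -/
theorem result.{u} (S : Type u) [CommSemigroup S] [Nonempty S]
    (hS : ∀ x : S, ∃ n : ℕ, 0 < n ∧ ∃ p y : S, (p : WithOne S) = (x : WithOne S) ^ n ∧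
      p * y * p = p) :
    IsCancelMul (S →ₙ* S) ↔ ∃ e : S, ∀ x, e * x = x ∧ ∃ y, x * y = e := by
  constructor
  · intro h
    rw [cancelMul_end_iff] at h
    exact epigroup_end hS h
  · rintro ⟨e, he⟩
    rw [cancelMul_end_iff]
    apply end_of_cancel
    intro a b c habc
    obtain ⟨y, hy⟩ := (he a).2
    have h1 : y * (a * b) = y * (a * c) := by rw [habc]
    rw [← mul_assoc, ← mul_assoc, mul_comm y a, hy, (he b).1, (he c).1] at h1
    exact h1

end Pool.Agent.Results.MP_4b0123_al.Epigroups
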