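import Pool.Agent.Helper54.EndCode

set_option autoImplicit false

/-!
The countable commutative semigroups whose pointwise endomorphism semigroup is cancellative form
a complete coanalytic (`Π¹₁`-complete) set of multiplication tables on `ℕ`; in particular they do
not form a Borel set, so they admit no characterisation by a Borel condition.
-/

namespace Pool.Agent.Results.MP_4b0123_al.NoBorelDescription

open Pool.Agent.Helper54.EndCanc MeasureTheory Set

/-- Powers: `pwr m a n = a ^ (n + 1)` in `(X, m)`. -/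
def pwr {X : Type} (m : X → X → X) (a : X) : ℕ → X
  | 0 => a
  | n + 1 => m (pwr m a n) a

section El

variable {V : Type} {E : V → V → Prop}

theorem pwr_eq_pw (col : V → Bool) (a : El V E) (n : ℕ) : pwr (mul col) a n = pw col a n := by
  induction n with
  | zero => rfl
  | succ n ih => rw [pwr, pw, ih]

theorem triple (col : V → Bool) (a b d a' b' d' : El V E)
    (h : deg (mul col (mul col a b) d) = deg (mul col (mul col a' b') d')) :
    mul col (mul col a b) d = mul col (mul col a' b') d' := by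
  have h1 := deg_mul col a b
  have h2 := deg_mul col a' b'
  have ha := deg_ge a
  have hb := deg_ge b
  have hd := deg_ge d
  have ha' := deg_ge a'
  have hb' := deg_ge b'
  have hd' := deg_ge d'
  rw [deg_mul col (mul col a b) d, deg_mul col (mul col a' b') d'] at h
  rw [mul_z col _ d (by omega) (by omega), mul_z col _ d' (by omega) (by omega), h]

theorem all_powers (hE : ∀ v, ¬ E v v) {col : V → Bool} (hrig : ∀ φ, IsHom E col φ → φ = id)
    {f : El V E → El V E} (hf : IsEnd (mul col) f) : ∃ n, ∀ a, f a = pwr (mul col) a n := by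
  obtain ⟨k, hk, hfk⟩ := scale hf
  rcases Nat.lt_or_ge k 2 with hk2 | hk2
  · have : k = 1 := by omega
    subst this
    refine ⟨0, fun a => ?_⟩
    rw [id_of_scale_one hE hrig hf (by intro a; rw [hfk a, one_mul])]
    rfl
  · refine ⟨k - 1, fun a => ?_⟩
    have hp : ∀ a : El V E, deg (pw col a (k - 1)) = k * deg a := by
      intro a
      rw [deg_pw]
      congr 1
      omega
    rw [pwr_eq_pw, eq_of_scale hk2 hfk a, eq_of_scale (f := fun a => pw col a (k - 1)) hk2 hp a]

end El

theorem pwr_trans {X Y : Type} (e : X ≃ Y) (m : X → X → X) (a : X) (n : ℕ) :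
    pwr (transp e m) (e a) n = e (pwr m a n) := by
  induction n with
  | zero => rfl
  | succ n ih => rw [pwr, ih, transp, pwr]; simp

/-- Continuous reduction of an arbitrary analytic set. -/
theorem hardness (A : Set (ℕ → ℕ)) (hA : AnalyticSet A) :
    ∃ Φ : (ℕ → ℕ) → ℕ → ℕ → ℕ, Continuous Φ ∧ ∀ x,
      IsCommSemigroup (Φ x) ∧
      (∃ d : ℕ → ℕ, (∀ a, 0 < d a) ∧ (∀ a b, d (Φ x a b) = d a + d b) ∧
        ∀ a b c a' b' c', d (Φ x (Φ x a b) c) = d (Φ x (Φ x a' b') c') →
          Φ x (Φ x a b) c = Φ x (Φ x a' b') c') ∧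
      (x ∈ A → ¬ EndCancellative (Φ x)) ∧
      (x ∉ A → EndCancellative (Φ x) ∧
        ∀ f, IsEnd (Φ x) f → ∃ n, ∀ a, f a = pwr (Φ x) a n) := by
  obtain ⟨S, hS, hS'⟩ : ∃ S : (ℕ → ℕ) → List ℕ → Bool, (∀ s, Continuous fun x => S x s) ∧
      ∀ x, (∃ y : ℕ → ℕ, ∀ n, S x (br y n) = true) ↔ x ∈ A := by
    rw [AnalyticSet] at hA
    rcases hA with rfl | ⟨f, hf, rfl⟩
    · exact ⟨fun _ _ => false, fun s => continuous_const, fun x => by simp⟩
    · exact ⟨tree f, continuous_tree f, branch_iff hf⟩
  refine ⟨fun x => code (S x), continuous_code hS, fun x => ⟨?_, ?_, ?_, ?_⟩⟩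
  · exact isCommSemigroup_trans _ (isCommSemigroup _)
  · refine ⟨fun a => deg (enum.symm a), fun a => ?_, fun a b => ?_, fun a b c a' b' c' h => ?_⟩
    · have := deg_ge (enum.symm a)
      simp only
      omega
    · simp only [code, transp, Equiv.symm_apply_apply]
      exact deg_mul _ _ _
    · simp only [code, transp, Equiv.symm_apply_apply] at h ⊢
      exact congrArg enum (triple _ _ _ _ _ _ _ h)
  · intro hx
    change ¬ EndCancellative (code (S x))
    rw [code, endCancellative_trans, endCancellative_tree_iff, hS']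
    exact not_not_intro hx
  · intro hx
    have hwf : ¬ ∃ y : ℕ → ℕ, ∀ n, S x (br y n) = true := by rwa [hS']
    refine ⟨?_, fun f hf => ?_⟩
    · change EndCancellative (code (S x))
      rw [code, endCancellative_trans, endCancellative_tree_iff]
      exact hwf
    · obtain ⟨n, hn⟩ := all_powers Ed_irrefl (fun φ hφ => rigid_of_wf hwf hφ)
        (isEnd_of_trans enum hf)
      refine ⟨n, fun a => ?_⟩
      have h1 := hn (enum.symm a)
      simp only [Function.comp, Equiv.apply_symm_apply] at h1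
      have h2 := congrArg enum h1
      rw [Equiv.apply_symm_apply] at h2
      rw [h2, ← pwr_trans, Equiv.apply_symm_apply]
      rfl

/-- Quadruples of a table and three self maps. -/
abbrev Quad : Type := (ℕ → ℕ → ℕ) × (ℕ → ℕ) × (ℕ → ℕ) × (ℕ → ℕ)

theorem polish_prod (α β : Type) [TopologicalSpace α] [TopologicalSpace β] [PolishSpace α]
    [PolishSpace β] : PolishSpace (α × β) := inferInstance

instance polishQuad : PolishSpace Quad := by
  haveI h1 : PolishSpace ((ℕ → ℕ) × (ℕ → ℕ)) := polish_prod _ _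
  haveI h2 : PolishSpace ((ℕ → ℕ) × (ℕ → ℕ) × (ℕ → ℕ)) := polish_prod _ _
  exact polish_prod _ _

/-- The set of tables is coanalytic. -/
theorem coanalytic :
    AnalyticSet {m : ℕ → ℕ → ℕ | IsCommSemigroup m ∧ EndCancellative m}ᶜ := by
  -- the continuous evaluation maps
  have ev1 : ∀ {u : Quad → ℕ → ℕ} {v : Quad → ℕ}, Continuous u → Continuous v →
      Continuous fun p => u p (v p) := fun hu hv => continuous_eval.comp (hu.prodMk hv)
  have ev2 : ∀ {u v : Quad → ℕ}, Continuous u → Continuous v →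
      Continuous fun p : Quad => p.1 (u p) (v p) := by
    intro u v hu hv
    have h1 : Continuous fun p : Quad => p.1 (u p) :=
      continuous_eval.comp (continuous_fst.prodMk hu)
    exact continuous_eval.comp (h1.prodMk hv)
  have cf : Continuous fun p : Quad => p.2.1 := continuous_fst.comp continuous_snd
  have cg : Continuous fun p : Quad => p.2.2.1 :=
    continuous_fst.comp (continuous_snd.comp continuous_snd)
  have ch : Continuous fun p : Quad => p.2.2.2 :=
    continuous_snd.comp (continuous_snd.comp continuous_snd)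
  have hend : ∀ {u : Quad → ℕ → ℕ}, Continuous u → IsClosed {p : Quad | IsEnd p.1 (u p)} := by
    intro u hu
    have : {p : Quad | IsEnd p.1 (u p)} =
        ⋂ x : ℕ, ⋂ y : ℕ, {p : Quad | u p (p.1 x y) = p.1 (u p x) (u p y)} := by
      ext p
      simp [IsEnd]
    rw [this]
    refine isClosed_iInter fun x => isClosed_iInter fun y => isClosed_eq ?_ ?_
    · exact ev1 hu (ev2 continuous_const continuous_const)
    · exact ev2 (ev1 hu continuous_const) (ev1 hu continuous_const)
  have hcomm : IsClosed {p : Quad | IsCommSemigroup p.1} := by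
    have : {p : Quad | IsCommSemigroup p.1} =
        (⋂ x : ℕ, ⋂ y : ℕ, ⋂ z : ℕ, {p : Quad | p.1 (p.1 x y) z = p.1 x (p.1 y z)}) ∩
        ⋂ x : ℕ, ⋂ y : ℕ, {p : Quad | p.1 x y = p.1 y x} := by
      ext p
      simp [IsCommSemigroup]
    rw [this]
    refine IsClosed.inter (isClosed_iInter fun x => isClosed_iInter fun y =>
      isClosed_iInter fun z => isClosed_eq ?_ ?_) (isClosed_iInter fun x => isClosed_iInter fun y =>
      isClosed_eq ?_ ?_)
    · exact ev2 (ev2 continuous_const continuous_const) continuous_const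
    · exact ev2 continuous_const (ev2 continuous_const continuous_const)
    · exact ev2 continuous_const continuous_const
    · exact ev2 continuous_const continuous_const
  have heq : IsClosed {p : Quad | ∀ x, p.1 (p.2.1 x) (p.2.2.2 x) = p.1 (p.2.2.1 x) (p.2.2.2 x)} := by
    have : {p : Quad | ∀ x, p.1 (p.2.1 x) (p.2.2.2 x) = p.1 (p.2.2.1 x) (p.2.2.2 x)} =
        ⋂ x : ℕ, {p : Quad | p.1 (p.2.1 x) (p.2.2.2 x) = p.1 (p.2.2.1 x) (p.2.2.2 x)} := by
      ext p
      simp
    rw [this]
    exact isClosed_iInter fun x => isClosed_eq (ev2 (ev1 cf continuous_const) (ev1 ch continuous_const))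
      (ev2 (ev1 cg continuous_const) (ev1 ch continuous_const))
  have hne : IsOpen {p : Quad | p.2.1 ≠ p.2.2.1} := isOpen_ne_fun cf cg
  let W : Set Quad := {p : Quad | IsCommSemigroup p.1}ᶜ ∪
    ({p : Quad | IsEnd p.1 p.2.1} ∩ {p : Quad | IsEnd p.1 p.2.2.1} ∩ {p : Quad | IsEnd p.1 p.2.2.2} ∩
      {p : Quad | ∀ x, p.1 (p.2.1 x) (p.2.2.2 x) = p.1 (p.2.2.1 x) (p.2.2.2 x)} ∩
      {p : Quad | p.2.1 ≠ p.2.2.1})
  letI : MeasurableSpace Quad := borel Quad
  haveI : BorelSpace Quad := ⟨rfl⟩
  have hW : MeasurableSet W := by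
    exact hcomm.measurableSet.compl.union
      (((((hend cf).measurableSet.inter (hend cg).measurableSet).inter
        (hend ch).measurableSet).inter heq.measurableSet).inter hne.measurableSet)
  have himg : {m : ℕ → ℕ → ℕ | IsCommSemigroup m ∧ EndCancellative m}ᶜ = Prod.fst '' W := by
    ext m
    constructor
    · intro hm
      by_cases hc : IsCommSemigroup m
      · have h1 : ¬ EndCancellative m := fun h => hm ⟨hc, h⟩
        unfold EndCancellative at h1
        push Not at h1
        obtain ⟨f, g, h, hf, hg, hh, hfg, hne'⟩ := h1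
        exact ⟨(m, f, g, h), Or.inr ⟨⟨⟨⟨hf, hg⟩, hh⟩, hfg⟩, hne'⟩, rfl⟩
      · exact ⟨(m, id, id, id), Or.inl hc, rfl⟩
    · rintro ⟨⟨m', f, g, h⟩, hp, rfl⟩ ⟨hc, hcan⟩
      rcases hp with hp | ⟨⟨⟨⟨hf, hg⟩, hh⟩, hfg⟩, hne'⟩
      · exact hp hc
      · exact hne' (hcan f g h hf hg hh hfg)
  rw [himg]
  exact hW.analyticSet.image_of_continuous continuous_fst

/-- **Main theorem.** -/
theorem result :
    (∀ A : Set (ℕ → ℕ), AnalyticSet A →
      ∃ Φ : (ℕ → ℕ) → ℕ → ℕ → ℕ, Continuous Φ ∧ ∀ x,
        IsCommSemigroup (Φ x) ∧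
        (∃ d : ℕ → ℕ, (∀ a, 0 < d a) ∧ (∀ a b, d (Φ x a b) = d a + d b) ∧
          ∀ a b c a' b' c', d (Φ x (Φ x a b) c) = d (Φ x (Φ x a' b') c') →
            Φ x (Φ x a b) c = Φ x (Φ x a' b') c') ∧
        (x ∈ A → ¬ EndCancellative (Φ x)) ∧
        (x ∉ A → EndCancellative (Φ x) ∧
          ∀ f, IsEnd (Φ x) f → ∃ n, ∀ a, f a = pwr (Φ x) a n)) ∧
    AnalyticSet {m : ℕ → ℕ → ℕ | IsCommSemigroup m ∧ EndCancellative m}ᶜ ∧
    ¬ MeasurableSet {m : ℕ → ℕ → ℕ | IsCommSemigroup m ∧ EndCancellative m} := by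
  refine ⟨hardness, coanalytic, fun hmeas => ?_⟩
  obtain ⟨D, hD, hD'⟩ := exists_analytic_not_borel
  obtain ⟨Φ, hΦ, h⟩ := hardness D hD
  apply hD'
  have h1 : D = (Φ ⁻¹' {m : ℕ → ℕ → ℕ | IsCommSemigroup m ∧ EndCancellative m})ᶜ := by
    ext x
    obtain ⟨h1, -, h3, h4⟩ := h x
    constructor
    · intro hx hx'
      exact h3 hx hx'.2
    · intro hx
      by_contra hcon
      exact hx ⟨h1, (h4 hcon).1⟩
  rw [h1]
  exact (hΦ.measurable hmeas).compl

end Pool.Agent.Results.MP_4b0123_al.NoBorelDescription
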