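import Pool.Agent.Helper54.EndEnc
import Pool.Agent.Helper54.EndPos

set_option autoImplicit false

/-!
Encoding of rigid digraphs: for every loopless digraph `(V, E)` there is a commutative semigroup
`S`, finitely generated when `V` is finite, whose pointwise endomorphism semigroup is cancellative
if and only if `(V, E)` is rigid.
-/

namespace Pool.Agent.Results.MP_4b0123_al.RigidDigraphs

open Pool.Agent.Helper54.EndCanc

/-- The commutative semigroup attached to a digraph. -/
noncomputable abbrev semigroup (V : Type) (E : V → V → Prop) : CommSemigroup (El V E) where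
  mul := mul (fun _ => true)
  mul_assoc := mul_assoc' _
  mul_comm := mul_comm' _

/-- The finitely many generators, for finite `V`. -/
def gens (V : Type) (E : V → V → Prop) : Set (El V E) :=
  Set.range El.X ∪ Set.range El.Y ∪ {.g9, .g10, .g12, .g13, .g14} ∪ El.z '' {n | n < 9}

theorem closure_gens (V : Type) (E : V → V → Prop) :
    letI := semigroup V E
    Subsemigroup.closure (gens V E) = ⊤ := by
  letI := semigroup V E
  rw [eq_top_iff]
  intro a _
  have hX : ∀ v, (El.X v : El V E) ∈ Subsemigroup.closure (gens V E) := fun v =>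
    Subsemigroup.subset_closure (Or.inl (Or.inl (Or.inl ⟨v, rfl⟩)))
  have hY : ∀ v, (El.Y v : El V E) ∈ Subsemigroup.closure (gens V E) := fun v =>
    Subsemigroup.subset_closure (Or.inl (Or.inl (Or.inr ⟨v, rfl⟩)))
  have h9 : (El.g9 : El V E) ∈ Subsemigroup.closure (gens V E) :=
    Subsemigroup.subset_closure (Or.inl (Or.inr (by simp)))
  have h10 : (El.g10 : El V E) ∈ Subsemigroup.closure (gens V E) :=
    Subsemigroup.subset_closure (Or.inl (Or.inr (by simp)))
  have h12 : (El.g12 : El V E) ∈ Subsemigroup.closure (gens V E) :=
    Subsemigroup.subset_closure (Or.inl (Or.inr (by simp)))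
  have h13 : (El.g13 : El V E) ∈ Subsemigroup.closure (gens V E) :=
    Subsemigroup.subset_closure (Or.inl (Or.inr (by simp)))
  have h14 : (El.g14 : El V E) ∈ Subsemigroup.closure (gens V E) :=
    Subsemigroup.subset_closure (Or.inl (Or.inr (by simp)))
  cases a with
  | X v => exact hX v
  | Y v => exact hY v
  | g9 => exact h9
  | g10 => exact h10
  | g12 => exact h12
  | g13 => exact h13
  | g14 => exact h14
  | c =>
    have : (El.c : El V E) = El.g9 * El.g13 := rfl
    rw [this]
    exact Subsemigroup.mul_mem _ h9 h13
  | b1 =>
    have : (El.b1 : El V E) = El.g10 * El.g13 := rfl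
    rw [this]
    exact Subsemigroup.mul_mem _ h10 h13
  | b v w h =>
    have : (El.b v w h : El V E) = El.X v * El.Y w := by
      change _ = mul (fun _ => true) (El.X v) (El.Y w)
      simp [mul, xy, h]
    rw [this]
    exact Subsemigroup.mul_mem _ (hX v) (hY w)
  | z n =>
    induction n using Nat.strong_induction_on with
    | _ n ih =>
      rcases Nat.lt_or_ge n 9 with hn | hn
      · exact Subsemigroup.subset_closure (Or.inr ⟨n, hn, rfl⟩)
      · have : (El.z n : El V E) = El.z (n - 9) * El.g9 := by
          change _ = mul (fun _ => true) (El.z (n - 9)) El.g9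
          rw [mul_z]
          · simp only [deg_z, deg_g9]
            congr 1
            omega
          · simp only [deg_z, deg_g9]
            omega
          · simp only [deg_z, deg_g9]
            omega
        rw [this]
        exact Subsemigroup.mul_mem _ (ih (n - 9) (by omega) trivial) h9

theorem powers {V : Type} {E : V → V → Prop} (hE : ∀ v, ¬ E v v)
    (hrig : ∀ φ, IsHom E (fun _ => true) φ → φ = id) {f : El V E → El V E}
    (hf : IsEnd (mul fun _ => true) f) :
    ∃ n : ℕ, ∀ a, f a = (fun b => mul (fun _ => true) b a)^[n] a := by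
  have hpw : ∀ (n : ℕ) (a : El V E), (fun b => mul (fun _ => true) b a)^[n] a =
      pw (fun _ => true) a n := by
    intro n a
    induction n with
    | zero => rfl
    | succ n ih => rw [Function.iterate_succ_apply', ih, pw]
  obtain ⟨k, hk, hfk⟩ := scale hf
  rcases Nat.lt_or_ge k 2 with hk2 | hk2
  · have : k = 1 := by omega
    subst this
    refine ⟨0, fun a => ?_⟩
    rw [id_of_scale_one hE hrig hf (by intro a; rw [hfk a, one_mul])]
    rfl
  · refine ⟨k - 1, fun a => ?_⟩
    have hp : ∀ a : El V E, deg (pw (fun _ => true) a (k - 1)) = k * deg a := by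
      intro a
      rw [deg_pw]
      congr 1
      omega
    rw [hpw, eq_of_scale hk2 hfk a,
      eq_of_scale (f := fun a => pw (fun _ => true) a (k - 1)) hk2 hp a]

/-- **Main theorem.** For every loopless digraph `(V, E)` there is a commutative semigroup `S` such
that `End S` with pointwise multiplication is cancellative iff the only endomorphism of the digraph
`(V, E)` is the identity. Moreover `S` is finitely generated if `V` is finite, `V` embeds into `S`,
and for rigid `(V, E)` every endomorphism of `S` is a power map. -/
theorem result (V : Type) (E : V → V → Prop) (hE : ∀ v, ¬ E v v) :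
    ∃ (S : Type) (_ : CommSemigroup S),
      (IsCancelMul (S →ₙ* S) ↔ ∀ φ : V → V, (∀ v w, E v w → E (φ v) (φ w)) → φ = id) ∧
      ¬ IsCancelMul S ∧
      (Finite V → ∃ T : Set S, T.Finite ∧ Subsemigroup.closure T = ⊤) ∧
      (∃ ι : V → S, Function.Injective ι) ∧
      ((∀ φ : V → V, (∀ v w, E v w → E (φ v) (φ w)) → φ = id) →
        ∀ f : S →ₙ* S, ∃ n : ℕ, ∀ a : S, f a = (fun b => b * a)^[n] a) := by
  have hcol : ∀ φ : V → V, IsHom E (fun _ => true) φ ↔ (∀ v w, E v w → E (φ v) (φ w)) := by
    intro φ
    simp [IsHom]
  refine ⟨El V E, semigroup V E, ?_, ?_, ?_, ?_, ?_⟩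
  · letI := semigroup V E
    rw [isCancelMul_end_iff']
    have h1 := endCancellative_mul_iff hE (fun _ => true)
    simp only [hcol] at h1
    exact h1
  · letI := semigroup V E
    intro H
    have h1 : (El.z 6 : El V E) * El.z 0 = El.c * El.z 0 := by
      change mul (fun _ => true) (El.z 6) (El.z 0) = mul (fun _ => true) El.c (El.z 0)
      rw [mul_z _ _ _ (by simp) (by simp), mul_z _ _ _ (by simp) (by simp)]
      simp
    have h2 : (El.z 6 : El V E) = El.c := mul_right_cancel h1
    cases h2
  · intro hV
    refine ⟨gens V E, ?_, closure_gens V E⟩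
    exact (((Set.finite_range _).union (Set.finite_range _)).union (Set.toFinite _)).union
      ((Set.finite_lt_nat 9).image _)
  · exact ⟨El.X, fun a b h => by simpa using h⟩
  · letI := semigroup V E
    intro hrig f
    exact powers hE (fun φ hφ => hrig φ ((hcol φ).1 hφ)) (f := f) (map_mul f)

end Pool.Agent.Results.MP_4b0123_al.RigidDigraphs
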