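import Pool.Agent.Helper13.EC.Chain
import Pool.Agent.Helper13.EC.Kappa
import Pool.Agent.Helper13.EC.Mono
import Pool.Agent.Helper13.EC.GLevels
import Pool.Agent.Helper13.EC.Trans

/-!
Finitely generated (and graded) commutative semigroups with cancellative pointwise endomorphism
semigroup: a structure theorem.
-/

namespace Pool.Agent.Results.MP_4b0123_al.StructureTheorem

open Pool.Agent.Helper54.EndCanc Pool.Agent.Helper13.EC

/-- `S` is separative: `a² = ab = b²` implies `a = b`. -/
def Separative (S : Type*) [CommSemigroup S] : Prop :=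
  ∀ a b : S, a * a = a * b → a * b = b * b → a = b

/-- `S` is finitely generated. -/
def FinGen (S : Type*) [CommSemigroup S] : Prop :=
  ∃ T : Set S, T.Finite ∧ Subsemigroup.closure T = ⊤

/-- All large powers of `x` and `y` are equal (powers are computed in `S` with an identity
adjoined). This is the least separative congruence of a commutative semigroup. -/
def EvEq {S : Type*} [CommSemigroup S] (x y : S) : Prop :=
  ∃ N, ∀ n, N ≤ n → (x : WithOne S) ^ n = (y : WithOne S) ^ n

/-- A levelling of `S`: a surjective map onto `{0, …, r - 1}` such that the level of a product is the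
minimum of the levels, and `x` has a higher level than `y` if and only if `x x' y = y` for some
`x'`. -/
structure Levelling {S : Type*} [CommSemigroup S] {r : ℕ} (lev : S → Fin r) : Prop where
  surj : Function.Surjective lev
  mul : ∀ x y, lev (x * y) = min (lev x) (lev y)
  lt_iff : ∀ x y, lev y < lev x ↔ ∃ x', x * x' * y = y

/-- The levels of `lev` are cancellative. -/
def LevelCancellative {S : Type*} [CommSemigroup S] {r : ℕ} (lev : S → Fin r) : Prop :=
  ∀ x y z, lev x = lev z → lev y = lev z → x * z = y * z → x = y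

/-- The levels of `lev` are cancellative up to `EvEq`. -/
def LevelEvCancellative {S : Type*} [CommSemigroup S] {r : ℕ} (lev : S → Fin r) : Prop :=
  ∀ x y z, lev x = lev z → lev y = lev z → x * z = y * z → EvEq x y

/-- Two endomorphisms such that `f x` and `g x` have equal large powers for every `x` are equal. -/
def Rigid (S : Type*) [CommSemigroup S] : Prop :=
  ∀ f g : S →ₙ* S, (∀ x, EvEq (f x) (g x)) → f = g

/-- `xz = yz` implies that `x` and `y` have equal large powers. -/
def EvCancellative (S : Type*) [CommSemigroup S] : Prop :=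
  ∀ x y z : S, x * z = y * z → EvEq x y

/-- `S` is graded: it has an additive map to the positive integers. -/
def Graded (S : Type*) [CommSemigroup S] : Prop :=
  ∃ l : S → ℕ, (∀ x y, l (x * y) = l x + l y) ∧ ∀ x, 0 < l x

/-- The congruence `EvEq` (all large powers are equal). -/
def evCon (S : Type*) [CommSemigroup S] : Con S where
  r := EvEq
  iseqv := ⟨fun _ => ⟨0, fun _ _ => rfl⟩, fun ⟨N, h⟩ => ⟨N, fun n hn => (h n hn).symm⟩,
    fun ⟨N, h⟩ ⟨N', h'⟩ => ⟨max N N', fun n hn => (h n (le_trans (le_max_left _ _) hn)).trans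
      (h' n (le_trans (le_max_right _ _) hn))⟩⟩
  mul' := fun {w x y z} ⟨N, h⟩ ⟨N', h'⟩ => ⟨max N N', fun n hn => by
    rw [WithOne.coe_mul, WithOne.coe_mul, mul_pow, mul_pow, h n (le_trans (le_max_left _ _) hn),
      h' n (le_trans (le_max_right _ _) hn)]⟩

section basic

variable {S : Type*} [CommSemigroup S]

theorem evEq_mul {x y : S} (h : EvEq x y) : ∃ z : S, (∃ n, 0 < n ∧ (z : WithOne S) = (x : WithOne S) ^ n) ∧
    x * z = y * z := by
  obtain ⟨N, hN⟩ := h
  obtain ⟨z, hz⟩ := exists_pow (⟨fun x : S => (x : WithOne S), fun x y => WithOne.coe_mul x y⟩ :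
    S →ₙ* WithOne S) x (N + 1) (by omega)
  have hz' : (z : WithOne S) = (x : WithOne S) ^ (N + 1) := hz
  refine ⟨z, ⟨N + 1, by omega, hz'⟩, ?_⟩
  apply WithOne.coe_injective
  rw [WithOne.coe_mul, WithOne.coe_mul, hz', ← pow_succ']
  rw [hN (N + 1) (by omega), hN (N + 1 + 1) (by omega), ← pow_succ']

theorem evEq_symm {x y : S} (h : EvEq x y) : EvEq y x := by
  obtain ⟨N, hN⟩ := h
  exact ⟨N, fun n hn => (hN n hn).symm⟩

/-- Powers have the same level. -/
theorem lev_pow {r : ℕ} {lev : S → Fin r} (hl : Levelling lev) (x : S) :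
    ∀ n, 0 < n → ∀ z : S, (z : WithOne S) = (x : WithOne S) ^ n → lev z = lev x := by
  intro n
  induction n with
  | zero => intro h; omega
  | succ n ih =>
    intro _ z hz
    rcases Nat.eq_zero_or_pos n with rfl | hn
    · rw [zero_add, pow_one] at hz
      rw [WithOne.coe_injective hz]
    · obtain ⟨w, hw⟩ := exists_pow (⟨fun x : S => (x : WithOne S),
        fun x y => WithOne.coe_mul x y⟩ : S →ₙ* WithOne S) x n hn
      have hw' : (w : WithOne S) = (x : WithOne S) ^ n := hw
      have h1 : z = w * x := by
        apply WithOne.coe_injective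
        rw [hz, WithOne.coe_mul, hw', pow_succ]
      rw [h1, hl.mul, ih hn w hw', min_self]

/-- Endomorphisms preserve the levels of a levelling. -/
theorem lev_end {r : ℕ} {lev : S → Fin r} (hl : Levelling lev) (f : S →ₙ* S) (x : S) :
    lev (f x) = lev x := by
  have h := level_eq (r - 1) (fun x => (lev x : ℕ)) (fun x => by have := (lev x).2; omega)
    (fun j hj => by
      have hr : 0 < r := lt_of_le_of_lt (Nat.zero_le _) (lev x).2
      obtain ⟨y, hy⟩ := hl.surj ⟨j, by omega⟩
      exact ⟨y, by simp only [hy]⟩) f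
    (fun x y hxy => by
      obtain ⟨x', hx'⟩ := (hl.lt_iff x y).1 hxy
      have h1 : lev (f y) < lev (f x) := by
        rw [hl.lt_iff]
        exact ⟨f x', by rw [← map_mul, ← map_mul, hx']⟩
      exact h1) x
  exact Fin.ext h

/-- The sufficient condition, for arbitrary commutative semigroups. -/
theorem end_of_levelling {r : ℕ} {lev : S → Fin r} (hl : Levelling lev)
    (hc : ∀ x y z, lev x = lev z → lev y = lev z → x * z = y * z → EvEq x y) (hr : Rigid S) :
    ∀ f g h : S →ₙ* S, f * h = g * h → f = g := by
  intro f g h hfg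
  apply hr
  intro x
  apply hc (f x) (g x) (h x)
  · rw [lev_end hl, lev_end hl]
  · rw [lev_end hl, lev_end hl]
  · exact DFunLike.congr_fun hfg x

theorem end_of_ev (hc : EvCancellative S) (hr : Rigid S) :
    ∀ f g h : S →ₙ* S, f * h = g * h → f = g := by
  intro f g h hfg
  exact hr _ _ fun x => hc _ _ (h x) (DFunLike.congr_fun hfg x)

/-- The case with an idempotent. -/
theorem necessary_idem (hfg : FinGen S) (hE : ∀ f g h : S →ₙ* S, f * h = g * h → f = g)
    (e : S) (he : e * e = e) :
    (∃ e : S, ∀ x, e * x = x) ∧ EvCancellative S ∧ Rigid S := by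
  obtain ⟨T, hTf, hT⟩ := hfg
  have hid : ∀ x, e * x = x := idem_identity hE e he
  refine ⟨⟨e, hid⟩, ?_, ?_⟩
  · intro x y z h
    apply fg_necessary T hTf hT (Or.inl ⟨e, he⟩) hE z x y
    rw [mul_comm z x, mul_comm z y, h]
  · intro f g hfg
    let M : CommMonoid S := { ‹CommSemigroup S› with
      one := e
      one_mul := hid
      mul_one := fun x => by rw [mul_comm]; exact hid x }
    have : Monoid.FG S := by
      refine (Monoid.fg_iff).2 ⟨T, ?_, hTf⟩
      rw [eq_top_iff]
      rintro x -
      have hx : x ∈ Subsemigroup.closure T := by rw [hT]; trivial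
      induction hx using Subsemigroup.closure_induction with
      | mem y hy => exact Submonoid.subset_closure hy
      | mul x y _ _ hx hy => exact mul_mem hx hy
    apply mono_kappa hE f g
    intro x
    obtain ⟨z, -, hz⟩ := evEq_mul (hfg x)
    exact ⟨z, hz⟩

/-- The case without idempotents. -/
theorem necessary_lev (hfg : FinGen S) (hE : ∀ f g h : S →ₙ* S, f * h = g * h → f = g)
    (he : ∀ e : S, e * e ≠ e) :
    (∃ (r : ℕ) (lev : S → Fin r), Levelling lev ∧
      ∀ x y z, lev x = lev z → lev y = lev z → x * z = y * z → EvEq x y) ∧ Rigid S := by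
  obtain ⟨T, hTf, hT⟩ := hfg
  have hFG : Monoid.FG (WithOne S) := fg_withOne S T hTf hT
  have hred := red_withOne S
  have hEC := ecm_withOne S hE
  obtain ⟨r, ℓ, d, hL⟩ := exists_lev hred (idem_withOne S he) hEC
  have hK : Kap ℓ := kappa hred hEC hL
  have hlt : ∀ x : S, ℓ (x : WithOne S) < r := by
    intro x
    rcases lt_or_eq_of_le (hL.le (x : WithOne S)) with h | h
    · exact h
    · exact absurd ((hL.one_iff _).1 h) WithOne.coe_ne_one
  have hlev : ∀ x y z : S, ℓ (x : WithOne S) = ℓ (z : WithOne S) →
      ℓ (y : WithOne S) = ℓ (z : WithOne S) → x * z = y * z → EvEq x y := by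
    intro x y z h1 h2 h
    exact glevels hred hEC hL hK _ _ _ h1 h2 (by rw [← WithOne.coe_mul, h, WithOne.coe_mul])
  refine ⟨⟨r, fun x => ⟨ℓ (x : WithOne S), hlt x⟩, ⟨?_, ?_, ?_⟩, ?_⟩, ?_⟩
  · rintro ⟨j, hj⟩
    obtain ⟨x, hx⟩ := hL.surj j hj.le
    rcases withOne_cases x with rfl | ⟨y, rfl⟩
    · have := (hL.one_iff (1 : WithOne S)).2 rfl
      omega
    · exact ⟨y, Fin.ext hx⟩
  · intro x y
    apply Fin.ext
    rw [Fin.coe_min]
    change ℓ ((x * y : S) : WithOne S) = _
    rw [WithOne.coe_mul, hL.mul]
  · intro x y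
    rw [Fin.lt_def]
    change ℓ (y : WithOne S) < ℓ (x : WithOne S) ↔ _
    constructor
    · intro h
      obtain ⟨x', -, hx'⟩ := hL.inv (x : WithOne S)
      have h1 := hx' _ h
      rcases withOne_cases x' with rfl | ⟨w, rfl⟩
      · rw [mul_one, ← WithOne.coe_mul] at h1
        have h2 := WithOne.coe_injective h1
        exact ⟨x, by rw [mul_assoc, h2, h2]⟩
      · rw [← WithOne.coe_mul, ← WithOne.coe_mul] at h1
        exact ⟨w, WithOne.coe_injective h1⟩
    · rintro ⟨x', hx'⟩
      have h1 : ((x * x' : S) : WithOne S) * (y : WithOne S) = y := by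
        rw [← WithOne.coe_mul, hx']
      have h2 := hL.key0 _ _ WithOne.coe_ne_one h1
      rw [WithOne.coe_mul, hL.mul] at h2
      exact lt_of_lt_of_le h2 (min_le_left _ _)
  · intro x y z h1 h2 h
    exact hlev x y z (Fin.mk.inj_iff.1 h1) (Fin.mk.inj_iff.1 h2) h
  · intro f g hfg
    obtain ⟨F, hF, hFf⟩ := ext_withOne S f
    obtain ⟨G, hG, hGg⟩ := ext_withOne S g
    have h1 := hK F G hF hG (fun x => by
      rcases withOne_cases x with rfl | ⟨y, rfl⟩
      · exact ⟨1, rfl, by rw [map_one, map_one]⟩
      · obtain ⟨z, ⟨n, hn, hz⟩, hzz⟩ := evEq_mul (hfg y)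
        have hpow : ∀ n, 0 < n → ∀ w : WithOne S, ℓ (w ^ n) = ℓ w := by
          intro n hn w
          induction n with
          | zero => omega
          | succ n ih =>
            rcases Nat.eq_zero_or_pos n with rfl | h
            · rw [zero_add, pow_one]
            · rw [pow_succ, hL.mul, ih h, min_self]
        refine ⟨z, ?_, ?_⟩
        · rw [hz, hpow n hn, ← hFf, pres hL F hF]
        · rw [hFf, hGg, ← WithOne.coe_mul, ← WithOne.coe_mul, hzz])
    ext y
    apply WithOne.coe_injective
    rw [← hFf, ← hGg]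
    exact h1 _

theorem evEq_refl (x : S) : EvEq x x := ⟨0, fun _ _ => rfl⟩

theorem eq_of_evEq (hs : Separative S) {x y : S} (h : EvEq x y) : x = y :=
  eq_of_eventually (⟨fun x : S => (x : WithOne S), fun x y => WithOne.coe_mul x y⟩ :
    S →ₙ* WithOne S) WithOne.coe_injective hs x y h

theorem rigid_of_sep (hs : Separative S) : Rigid S := by
  intro f g hfg
  ext x
  exact eq_of_evEq hs (hfg x)

theorem evCon_eq {x y : S} : (x : (evCon S).Quotient) = y ↔ EvEq x y := (evCon S).eq

/-- The quotient by the congruence is separative. -/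
theorem separative_quot : Separative (evCon S).Quotient := by
  intro a b h1 h2
  induction a using Con.induction_on with
  | H a =>
  induction b using Con.induction_on with
  | H b =>
  rw [← Con.coe_mul, ← Con.coe_mul, evCon_eq] at h1 h2
  rw [evCon_eq]
  obtain ⟨N, hN⟩ := h1
  obtain ⟨N', hN'⟩ := h2
  have e1 : ∀ n, max N N' ≤ n → (a : WithOne S) ^ (2 * n) = (a : WithOne S) ^ n * (b : WithOne S) ^ n := by
    intro n hn
    have := hN n (le_trans (le_max_left _ _) hn)
    rw [WithOne.coe_mul, WithOne.coe_mul, mul_pow, mul_pow, ← pow_add, ← two_mul] at this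
    exact this
  have e2 : ∀ n, max N N' ≤ n → (b : WithOne S) ^ (2 * n) = (a : WithOne S) ^ n * (b : WithOne S) ^ n := by
    intro n hn
    have := hN' n (le_trans (le_max_right _ _) hn)
    rw [WithOne.coe_mul, WithOne.coe_mul, mul_pow, mul_pow, ← pow_add, ← two_mul] at this
    exact this.symm
  have e3 : ∀ n, max N N' ≤ n → (a : WithOne S) ^ (2 * n) = (b : WithOne S) ^ (2 * n) := by
    intro n hn
    rw [e1 n hn, e2 n hn]
  refine ⟨4 * max N N' + 9, fun n hn => ?_⟩
  obtain ⟨k, rfl | rfl⟩ := Nat.even_or_odd' n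
  · exact e3 k (by omega)
  · obtain ⟨i, rfl | rfl⟩ := Nat.even_or_odd' k
    · -- k = 2 i : exponent 4 i + 1 = 2 (2 i - 1) + 3
      obtain ⟨t, rfl⟩ : ∃ t, i = t + 1 := ⟨i - 1, by omega⟩
      have h3 : 2 * (2 * (t + 1)) + 1 = 2 * (2 * t + 1) + 3 := by ring
      have h4 : (2 * t + 1) + 3 = 2 * (t + 2) := by ring
      rw [h3, pow_add, e1 _ (by omega), mul_right_comm, ← pow_add, h4, e3 (t + 2) (by omega),
        ← pow_add]
      congr 1
      ring
    · have h4 : (2 * i + 1) + 1 = 2 * (i + 1) := by ring
      rw [pow_add _ (2 * (2 * i + 1)) 1, e1 _ (by omega), mul_right_comm, ← pow_add, h4,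
        e3 (i + 1) (by omega), ← pow_add]
      congr 1
      ring

theorem finGen_quot (h : FinGen S) : FinGen (evCon S).Quotient := by
  obtain ⟨T, hTf, hT⟩ := h
  refine ⟨(fun x : S => (x : (evCon S).Quotient)) '' T, hTf.image _, ?_⟩
  rw [eq_top_iff]
  rintro x -
  induction x using Con.induction_on with
  | H x =>
  have hx : x ∈ Subsemigroup.closure T := by rw [hT]; trivial
  induction hx using Subsemigroup.closure_induction with
  | mem y hy => exact Subsemigroup.subset_closure ⟨y, hy, rfl⟩
  | mul x y _ _ hx hy =>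
    rw [Con.coe_mul]
    exact mul_mem hx hy

/-- An endomorphism of `S` induces an endomorphism of the quotient. -/
theorem evEq_map (f : S →ₙ* S) {x y : S} (h : EvEq x y) : EvEq (f x) (f y) := by
  obtain ⟨N, hN⟩ := h
  have hpow : ∀ (x : S) (n : ℕ), ((f x : S) : WithOne S) ^ n =
      WithOne.mapMulHom f ((x : WithOne S) ^ n) := by
    intro x n
    rw [map_pow, WithOne.mapMulHom_coe]
  exact ⟨N, fun n hn => by rw [hpow, hpow, hN n hn]⟩

/-- If `End` of the quotient is cancellative and `S` is rigid, then `End(S)` is cancellative. -/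
theorem end_of_quot (hq : IsCancelMul ((evCon S).Quotient →ₙ* (evCon S).Quotient)) (hr : Rigid S) :
    IsCancelMul (S →ₙ* S) := by
  rw [cancelMul_end_iff] at hq ⊢
  have hind : ∀ f : S →ₙ* S, ∃ F : (evCon S).Quotient →ₙ* (evCon S).Quotient,
      ∀ x : S, F x = (f x : (evCon S).Quotient) := by
    intro f
    refine ⟨⟨fun q => Quotient.liftOn' q (fun x => (f x : (evCon S).Quotient)) ?_, ?_⟩, ?_⟩
    · intro x y h
      exact evCon_eq.2 (evEq_map f h)
    · intro a b
      induction a using Con.induction_on with
      | H a =>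
      induction b using Con.induction_on with
      | H b =>
      change ((f (a * b) : S) : (evCon S).Quotient) = (f a : (evCon S).Quotient) * (f b : (evCon S).Quotient)
      rw [map_mul, Con.coe_mul]
    · intro x
      rfl
  intro f g h hfg
  obtain ⟨F, hF⟩ := hind f
  obtain ⟨G, hG⟩ := hind g
  obtain ⟨H, hH⟩ := hind h
  have h1 : F = G := by
    apply hq F G H
    ext q
    induction q using Con.induction_on with
    | H x =>
    rw [MulHom.mul_apply, MulHom.mul_apply, hF, hG, hH, ← Con.coe_mul, ← Con.coe_mul]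
    exact congrArg _ (DFunLike.congr_fun hfg x)
  apply hr
  intro x
  rw [← evCon_eq, ← hF, ← hG, h1]

/-- Equivalent elements have the same level. -/
theorem lev_evEq {r : ℕ} {lev : S → Fin r} (hl : Levelling lev) {x y : S} (h : EvEq x y) :
    lev x = lev y := by
  obtain ⟨z, ⟨n, hn, hz⟩, h1⟩ := evEq_mul h
  obtain ⟨w, ⟨m, hm, hw⟩, h2⟩ := evEq_mul (evEq_symm h)
  have e1 := congrArg lev h1
  have e2 := congrArg lev h2
  rw [hl.mul, hl.mul, lev_pow hl x n hn z hz, min_self] at e1
  rw [hl.mul, hl.mul, lev_pow hl y m hm w hw, min_self] at e2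
  have h3 : lev x ≤ lev y := by rw [e1]; exact min_le_left _ _
  have h4 : lev y ≤ lev x := by rw [e2]; exact min_le_left _ _
  exact le_antisymm h3 h4

/-- A levelling whose levels are cancellative up to `EvEq` descends to the quotient. -/
theorem levelling_quot {r : ℕ} {lev : S → Fin r} (hl : Levelling lev)
    (hc : ∀ x y z, lev x = lev z → lev y = lev z → x * z = y * z → EvEq x y) :
    ∃ lev' : (evCon S).Quotient → Fin r, Levelling lev' ∧
      ∀ x y z, lev' x = lev' z → lev' y = lev' z → x * z = y * z → x = y := by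
  refine ⟨fun q => Quotient.liftOn' q lev (fun x y h => lev_evEq hl h), ⟨?_, ?_, ?_⟩, ?_⟩
  · intro j
    obtain ⟨x, hx⟩ := hl.surj j
    exact ⟨(x : (evCon S).Quotient), hx⟩
  · intro a b
    induction a using Con.induction_on with
    | H a =>
    induction b using Con.induction_on with
    | H b => exact hl.mul a b
  · intro a b
    induction a using Con.induction_on with
    | H a =>
    induction b using Con.induction_on with
    | H b =>
    change lev b < lev a ↔ _
    constructor
    · intro h
      obtain ⟨x', hx'⟩ := (hl.lt_iff a b).1 h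
      exact ⟨(x' : (evCon S).Quotient), by rw [← Con.coe_mul, ← Con.coe_mul, hx']⟩
    · rintro ⟨c, hc'⟩
      induction c using Con.induction_on with
      | H c =>
      rw [← Con.coe_mul, ← Con.coe_mul, evCon_eq] at hc'
      obtain ⟨w, ⟨n, hn, hw⟩, h1⟩ := evEq_mul (evEq_symm hc')
      have h2 : lev (b * w) < lev a := by
        rw [hl.lt_iff]
        refine ⟨c, ?_⟩
        rw [← mul_assoc, ← h1]
      rwa [hl.mul, lev_pow hl b n hn w hw, min_self] at h2
  · intro x y z h1 h2 h
    induction x using Con.induction_on with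
    | H x =>
    induction y using Con.induction_on with
    | H y =>
    induction z using Con.induction_on with
    | H z =>
    change lev x = lev z at h1
    change lev y = lev z at h2
    rw [← Con.coe_mul, ← Con.coe_mul, evCon_eq] at h
    rw [evCon_eq]
    obtain ⟨w, ⟨n, hn, hw⟩, h3⟩ := evEq_mul h
    have h4 : lev w = lev z := by
      rw [lev_pow hl _ n hn w hw, hl.mul, h1, min_self]
    apply hc x y (z * w)
    · rw [hl.mul, h4, min_self, h1]
    · rw [hl.mul, h4, min_self, h2]
    · rw [← mul_assoc, h3, mul_assoc]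

theorem cancel_quot (hc : EvCancellative S) : IsCancelMul (evCon S).Quotient := by
  rw [cancelMul_iff]
  intro z x y h
  induction x using Con.induction_on with
  | H x =>
  induction y using Con.induction_on with
  | H y =>
  induction z using Con.induction_on with
  | H z =>
  rw [← Con.coe_mul, ← Con.coe_mul, evCon_eq, mul_comm z x, mul_comm z y] at h
  rw [evCon_eq]
  obtain ⟨w, ⟨n, hn, hw⟩, h3⟩ := evEq_mul h
  exact hc x y (z * w) (by rw [← mul_assoc, h3, mul_assoc])

end basic

/-- **Structure theorem.** Let `S` be a commutative semigroup which is finitely generated or graded;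
write `x ~ y` if all large powers of `x` and `y` are equal (`evCon S`).
(1) If `S` is separative, then `End(S)` is cancellative if and only if `S` is cancellative or has a
levelling with cancellative levels.
(2) If `End(S)` is cancellative, then `S` has an identity and `xz = yz` implies `x ~ y`, or `S` has a
levelling such that `xz = yz` implies `x ~ y` for `x`, `y`, `z` of the same level.
(3) If `S` is finitely generated, then `S/~` is finitely generated and separative, so that (1)
describes when `End(S/~)` is cancellative, and `End(S)` is cancellative if and only if `End(S/~)` is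
cancellative and `S` is rigid (endomorphisms `f`, `g` with `f x ~ g x` for all `x` are equal). -/
theorem result.{u} (S : Type u) [CommSemigroup S] (h : FinGen S ∨ Graded S) :
    (Separative S → (IsCancelMul (S →ₙ* S) ↔
      IsCancelMul S ∨ ∃ (r : ℕ) (lev : S → Fin r), Levelling lev ∧ LevelCancellative lev)) ∧
    (IsCancelMul (S →ₙ* S) → ((∃ e : S, ∀ x, e * x = x) ∧ EvCancellative S) ∨
      ∃ (r : ℕ) (lev : S → Fin r), Levelling lev ∧ LevelEvCancellative lev) ∧
    (FinGen S → FinGen (evCon S).Quotient ∧ Separative (evCon S).Quotient ∧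
      (IsCancelMul (S →ₙ* S) ↔
        IsCancelMul ((evCon S).Quotient →ₙ* (evCon S).Quotient) ∧ Rigid S)) := by
  have h2 : IsCancelMul (S →ₙ* S) → ((∃ e : S, ∀ x, e * x = x) ∧ EvCancellative S) ∨
      ∃ (r : ℕ) (lev : S → Fin r), Levelling lev ∧ LevelEvCancellative lev := by
    intro hE
    rw [cancelMul_end_iff] at hE
    rcases h with hfg | ⟨l, hl, hpos⟩
    · by_cases he : ∃ e : S, e * e = e
      · obtain ⟨e, he⟩ := he
        obtain ⟨h1, h2, -⟩ := necessary_idem hfg hE e he
        exact Or.inl ⟨h1, h2⟩
      · push Not at he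
        exact Or.inr (necessary_lev hfg hE he).1
    · right
      rcases isEmpty_or_nonempty S with hS | ⟨⟨x0⟩⟩
      · exact ⟨0, fun x => (IsEmpty.false x).elim, ⟨fun j => j.elim0,
          fun x => (IsEmpty.false x).elim, fun x => (IsEmpty.false x).elim⟩,
          fun x => (IsEmpty.false x).elim⟩
      · refine ⟨1, fun _ => 0, ⟨fun j => ⟨x0, Subsingleton.elim _ _⟩, fun _ _ => by simp,
          fun x y => ?_⟩, ?_⟩
        · constructor
          · intro h
            exact absurd h (lt_irrefl _)
          · rintro ⟨x', hx'⟩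
            exfalso
            have h1 := hl (x * x') y
            have h2 := hl x x'
            have h3 := hpos x
            rw [hx'] at h1
            omega
        · intro x y z _ _ h
          exact eventually_pow_eq (⟨fun x : S => (x : WithOne S),
            fun x y => WithOne.coe_mul x y⟩ : S →ₙ* WithOne S) WithOne.coe_injective l hl
            ⟨z, hpos z⟩ (Or.inl hpos) hE z x y (by rw [mul_comm z, mul_comm z, h])
  have hsuff : ∀ (T : Type u) [CommSemigroup T], (IsCancelMul T ∨
      ∃ (r : ℕ) (lev : T → Fin r), Levelling lev ∧ LevelCancellative lev) →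
        IsCancelMul (T →ₙ* T) := by
    intro T _ h
    rw [cancelMul_end_iff]
    rcases h with h | ⟨r, lev, hl, hc⟩
    · rw [cancelMul_iff] at h
      exact end_of_cancel h
    · intro f g h hfg
      ext x
      exact hc _ _ (h x) (by rw [lev_end hl, lev_end hl]) (by rw [lev_end hl, lev_end hl])
        (DFunLike.congr_fun hfg x)
  refine ⟨fun hsep => ⟨fun hE => ?_, hsuff S⟩, h2, fun hfg => ⟨finGen_quot hfg, separative_quot,
    fun hE => ⟨?_, ?_⟩, fun hE => end_of_quot hE.1 hE.2⟩⟩
  · rcases h2 hE with ⟨-, hc⟩ | ⟨r, lev, hl, hc⟩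
    · left
      rw [cancelMul_iff]
      intro a b c habc
      apply eq_of_evEq hsep
      apply hc b c a
      rw [mul_comm b, mul_comm c, habc]
    · exact Or.inr ⟨r, lev, hl, fun x y z h1 h2 h => eq_of_evEq hsep (hc x y z h1 h2 h)⟩
  · rcases h2 hE with ⟨-, hc⟩ | ⟨r, lev, hl, hc⟩
    · exact hsuff _ (Or.inl (cancel_quot hc))
    · obtain ⟨lev', hl', hc'⟩ := levelling_quot hl hc
      exact hsuff _ (Or.inr ⟨r, lev', hl', hc'⟩)
  · rw [cancelMul_end_iff] at hE
    by_cases he : ∃ e : S, e * e = e
    · obtain ⟨e, he⟩ := he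
      exact (necessary_idem hfg hE e he).2.2
    · push Not at he
      exact (necessary_lev hfg hE he).2

end Pool.Agent.Results.MP_4b0123_al.StructureTheorem
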